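import Mathlib

/-!
# Integration on `F_{d,∞}` with non-negative quadrature formulas suffers from the curse of dimensionality

For every `ε ∈ (0,1)` and every `C < e/2` the number of nodes of a non-negative quadrature formula
with error at most `ε 2^{-d}` is at least `C^d` for all large `d`.

Proof.  Let `F(x) = Σ a_k 1[t_k < x]` and `T(x) = ∏ x_i`, so that the error of the formula is at least
`∫ |F - T|`.  The measures `a_k 1[t_k < x] dx` are multiples of the uniform distributions on the boxes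
`[t_k, 1]` and `T dx` is a multiple of the distribution with independent coordinates with the density
`2 x`.  For this distribution, `∏ x_i` is about `e^{-d/2}` and `∏ (1 - x_i)` is about `e^{-3d/2}`; but
for the uniform distribution on the box `[t_k, 1]`, `∏ (1 - x_i)` is about `e^{-d}` times the volume
`V_k` of the box.  So only boxes with `V_k` about `e^{-d/2}` are useful, and the part of the mass of
`T dx` in the set `{T ≤ e^{-d/2}}` in such a box is at most about `e^{-d} = 2^{-d} (e/2)^{-d}`.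
-/

set_option autoImplicit false

open MeasureTheory Set Filter
open scoped ENNReal

namespace Pool.Agent.Results.MP_2335a4_an.NonnegativeCurse

/-- The unit ball of `F_{d,∞}`: the functions `f` on `[0,1]^d` which vanish if some coordinate is
equal to `1` and whose mixed derivative `g = ∂^d f / ∂x_1 ⋯ ∂x_d` is bounded by `1` almost
everywhere, i.e. `f(x) = (-1)^d ∫_{[x,1]} g`. -/
def unitBall (d : ℕ) : Set ((Fin d → ℝ) → ℝ) :=
  {f | ∃ g : (Fin d → ℝ) → ℝ, AEStronglyMeasurable g (volume.restrict (Icc (0 : Fin d → ℝ) 1)) ∧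
    (∀ᵐ y ∂(volume.restrict (Icc (0 : Fin d → ℝ) 1)), |g y| ≤ 1) ∧
    ∀ x ∈ Icc (0 : Fin d → ℝ) 1, f x = (-1) ^ d * ∫ y in Icc x 1, g y}

/-- The worst-case error `e(A)` of the quadrature formula `A(f) = Σ a_k f(t_k)`. -/
noncomputable def worstError {d N : ℕ} (a : Fin N → ℝ) (t : Fin N → Fin d → ℝ) : ℝ≥0∞ :=
  ⨆ f ∈ unitBall d,
    ENNReal.ofReal |(∫ x in Icc (0 : Fin d → ℝ) 1, f x) - ∑ k, a k * f (t k)|

/-- `e^+(N,d)`: the infimum of `e(A)` over all formulas with `N` nodes in `[0,1)^d` and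
non-negative weights. -/
noncomputable def minError (N d : ℕ) : ℝ≥0∞ :=
  ⨅ (a : Fin N → ℝ) (t : Fin N → Fin d → ℝ)
    (_ : (∀ k, 0 ≤ a k) ∧ ∀ k i, t k i ∈ Ico (0 : ℝ) 1), worstError a t

/-- `N^+(ε,d)`: the least `N` with `e^+(N,d) ≤ ε 2^{-d}` (`⊤` if there is none). -/
noncomputable def complexity (ε : ℝ) (d : ℕ) : ℕ∞ :=
  ⨅ (N : ℕ) (_ : minError N d ≤ ENNReal.ofReal (ε * (1 / 2) ^ d)), (N : ℕ∞)

/-! ## The error is at least the generalised `L_1`-discrepancy -/

/-- the indicator of `t < x` -/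
noncomputable def ind {d : ℕ} (t x : Fin d → ℝ) : ℝ :=
  Set.indicator {x : Fin d → ℝ | ∀ i, t i < x i} (fun _ => (1 : ℝ)) x

/-- the volume of `[0,x]` -/
noncomputable def T {d : ℕ} (x : Fin d → ℝ) : ℝ := ∏ i, x i

/-- the volume of `[x,1]` -/
noncomputable def R {d : ℕ} (x : Fin d → ℝ) : ℝ := ∏ i, (1 - x i)

/-- the weighted number of nodes below `x` -/
noncomputable def F {d N : ℕ} (a : Fin N → ℝ) (t : Fin N → Fin d → ℝ) (x : Fin d → ℝ) : ℝ :=
  ∑ k, a k * ind (t k) x

lemma meas_set {d : ℕ} (t : Fin d → ℝ) : MeasurableSet {x : Fin d → ℝ | ∀ i, t i < x i} := by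
  have : {x : Fin d → ℝ | ∀ i, t i < x i} = ⋂ i, {x : Fin d → ℝ | t i < x i} := by
    ext x; simp
  rw [this]
  exact MeasurableSet.iInter fun i => measurableSet_lt measurable_const (measurable_pi_apply i)

lemma ind_meas {d : ℕ} (t : Fin d → ℝ) : Measurable (ind t) :=
  Measurable.indicator measurable_const (meas_set t)

lemma ind_nonneg {d : ℕ} (t y : Fin d → ℝ) : 0 ≤ ind t y :=
  Set.indicator_nonneg (fun _ _ => zero_le_one) y

lemma ind_le_one {d : ℕ} (t y : Fin d → ℝ) : ind t y ≤ 1 := by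
  unfold ind
  rw [Set.indicator_apply]
  split_ifs <;> norm_num

lemma T_meas {d : ℕ} : Measurable (T : (Fin d → ℝ) → ℝ) :=
  Finset.measurable_prod _ fun i _ => measurable_pi_apply i

lemma R_meas {d : ℕ} : Measurable (R : (Fin d → ℝ) → ℝ) :=
  Finset.measurable_prod _ fun i _ => measurable_const.sub (measurable_pi_apply i)

lemma F_meas {d N : ℕ} (a : Fin N → ℝ) (t : Fin N → Fin d → ℝ) : Measurable (F a t) :=
  Finset.measurable_sum _ fun k _ => (ind_meas (t k)).const_mul (a k)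

instance finite_vol (d : ℕ) : IsFiniteMeasure ((volume : Measure (Fin d → ℝ)).restrict (Icc 0 1)) := by
  refine ⟨?_⟩
  rw [Measure.restrict_apply MeasurableSet.univ, univ_inter]
  exact isCompact_Icc.measure_lt_top

lemma T_mem {d : ℕ} {x : Fin d → ℝ} (hx : x ∈ Icc (0 : Fin d → ℝ) 1) : 0 ≤ T x ∧ T x ≤ 1 :=
  ⟨Finset.prod_nonneg fun i _ => hx.1 i, Finset.prod_le_one (fun i _ => hx.1 i) fun i _ => hx.2 i⟩

/-- The integral of the function with the mixed derivative `g`. -/
lemma integral_f {d : ℕ} {g : (Fin d → ℝ) → ℝ} (hg : Measurable g) (hb : ∀ y, |g y| ≤ 1) :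
    ∫ x in Icc (0 : Fin d → ℝ) 1, (∫ y in Icc x 1, g y) =
      ∫ y in Icc (0 : Fin d → ℝ) 1, g y * T y := by
  have hle : MeasurableSet {p : (Fin d → ℝ) × (Fin d → ℝ) | p.1 ≤ p.2} := by
    have : {p : (Fin d → ℝ) × (Fin d → ℝ) | p.1 ≤ p.2} =
        ⋂ i, {p : (Fin d → ℝ) × (Fin d → ℝ) | p.1 i ≤ p.2 i} := by
      ext p; simp [Pi.le_def]
    rw [this]
    exact MeasurableSet.iInter fun i => measurableSet_le
      ((measurable_pi_apply i).comp measurable_fst) ((measurable_pi_apply i).comp measurable_snd)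
  set G : (Fin d → ℝ) × (Fin d → ℝ) → ℝ :=
    Set.indicator {p : (Fin d → ℝ) × (Fin d → ℝ) | p.1 ≤ p.2} (fun p => g p.2) with hG
  have hGm : Measurable G := (hg.comp measurable_snd).indicator hle
  have h1 : ∀ x ∈ Icc (0 : Fin d → ℝ) 1,
      ∫ y in Icc x 1, g y = ∫ y in Icc (0 : Fin d → ℝ) 1, G (x, y) := by
    intro x hx
    have e : ∀ y, G (x, y) = (Ici x).indicator g y := by
      intro y
      by_cases h : x ≤ y
      · rw [hG, indicator_of_mem (show (x, y) ∈ {p : (Fin d → ℝ) × (Fin d → ℝ) | p.1 ≤ p.2} from h),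
          indicator_of_mem (show y ∈ Ici x from h)]
      · rw [hG, indicator_of_notMem
          (show (x, y) ∉ {p : (Fin d → ℝ) × (Fin d → ℝ) | p.1 ≤ p.2} from h),
          indicator_of_notMem (show y ∉ Ici x from h)]
    simp only [e]
    rw [setIntegral_indicator measurableSet_Ici]
    congr 2
    ext y
    simp only [mem_Icc, mem_inter_iff, mem_Ici]
    constructor
    · rintro ⟨h1, h2⟩; exact ⟨⟨hx.1.trans h1, h2⟩, h1⟩
    · rintro ⟨⟨h1, h2⟩, h3⟩; exact ⟨h3, h2⟩
  rw [setIntegral_congr_fun measurableSet_Icc h1]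
  have hint : Integrable G ((volume.restrict (Icc (0 : Fin d → ℝ) 1)).prod
      (volume.restrict (Icc (0 : Fin d → ℝ) 1))) := by
    refine Integrable.of_bound (C := 1) hGm.aestronglyMeasurable (Eventually.of_forall fun p => ?_)
    rw [Real.norm_eq_abs]
    by_cases h : p ∈ {p : (Fin d → ℝ) × (Fin d → ℝ) | p.1 ≤ p.2}
    · rw [hG, indicator_of_mem h]
      exact hb _
    · rw [hG, indicator_of_notMem h]
      simp
  rw [integral_integral_swap (f := fun x y => G (x, y)) hint]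
  refine setIntegral_congr_fun measurableSet_Icc fun y hy => ?_
  have e : ∀ x, G (x, y) = (Iic y).indicator (fun _ => g y) x := by
    intro x
    by_cases h : x ≤ y
    · rw [hG, indicator_of_mem (show (x, y) ∈ {p : (Fin d → ℝ) × (Fin d → ℝ) | p.1 ≤ p.2} from h),
        indicator_of_mem (show x ∈ Iic y from h)]
    · rw [hG, indicator_of_notMem
        (show (x, y) ∉ {p : (Fin d → ℝ) × (Fin d → ℝ) | p.1 ≤ p.2} from h),
        indicator_of_notMem (show x ∉ Iic y from h)]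
  simp only [e]
  rw [setIntegral_indicator measurableSet_Iic, setIntegral_const]
  have h2 : Icc (0 : Fin d → ℝ) 1 ∩ Iic y = Icc 0 y := by
    ext x
    simp only [mem_inter_iff, mem_Icc, mem_Iic]
    constructor
    · rintro ⟨⟨h1, h2⟩, h3⟩; exact ⟨h1, h3⟩
    · rintro ⟨h1, h3⟩; exact ⟨⟨h1, h3.trans hy.2⟩, h3⟩
  rw [h2, smul_eq_mul, Measure.real, Real.volume_Icc_pi_toReal hy.1, mul_comm]
  simp [T]

lemma ae_ind {d : ℕ} (t : Fin d → ℝ) :
    (Ici t).indicator (fun _ => (1 : ℝ)) =ᵐ[volume] ind t := by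
  have h : ∀ᵐ y : Fin d → ℝ, ∀ i, y i ≠ t i := by
    rw [ae_all_iff]
    intro i
    have h2 : Tendsto (fun y : Fin d → ℝ => y i) (ae (volume : Measure (Fin d → ℝ)))
        (ae (volume : Measure ℝ)) := Measure.tendsto_eval_ae_ae
    exact h2.eventually (Measure.ae_ne volume (t i))
  filter_upwards [h] with y hy
  unfold ind
  by_cases h1 : t ≤ y
  · rw [indicator_of_mem (show y ∈ Ici t from h1), indicator_of_mem]
    intro i
    exact lt_of_le_of_ne (h1 i) (Ne.symm (hy i))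
  · rw [indicator_of_notMem (show y ∉ Ici t from h1), indicator_of_notMem]
    intro h2
    exact h1 fun i => (h2 i).le

/-- The error of the formula is at least its generalised `L_1`-discrepancy. -/
lemma le_worstError {d N : ℕ} (a : Fin N → ℝ) (t : Fin N → Fin d → ℝ)
    (ht : ∀ k i, t k i ∈ Ico (0 : ℝ) 1) :
    ENNReal.ofReal (∫ x in Icc (0 : Fin d → ℝ) 1, |F a t x - T x|) ≤ worstError a t := by
  -- the extremal mixed derivative
  set g : (Fin d → ℝ) → ℝ := fun y => (-1) ^ d * (if T y < F a t y then 1 else -1) with hg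
  have hgm : Measurable g := by
    refine Measurable.const_mul ?_ _
    exact Measurable.ite (measurableSet_lt T_meas (F_meas a t)) measurable_const measurable_const
  have hgb : ∀ y, |g y| ≤ 1 := by
    intro y
    simp only [hg, abs_mul, abs_pow, abs_neg, abs_one, one_pow, one_mul]
    split_ifs <;> simp
  set f : (Fin d → ℝ) → ℝ := fun x => (-1) ^ d * ∫ y in Icc x 1, g y with hf
  have hmem : f ∈ unitBall d :=
    ⟨g, hgm.aestronglyMeasurable, Eventually.of_forall hgb, fun x _ => rfl⟩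
  refine le_trans (ENNReal.ofReal_le_ofReal ?_) (le_iSup₂ (f := fun f (_ : f ∈ unitBall d) =>
    ENNReal.ofReal |(∫ x in Icc (0 : Fin d → ℝ) 1, f x) - ∑ k, a k * f (t k)|) f hmem)
  have h1 : ∫ x in Icc (0 : Fin d → ℝ) 1, f x =
      (-1) ^ d * ∫ y in Icc (0 : Fin d → ℝ) 1, g y * T y := by
    simp only [hf]
    rw [integral_const_mul, integral_f hgm hgb]
  have hint : ∀ (u : (Fin d → ℝ) → ℝ), Measurable u → (∀ y, |u y| ≤ 1) →
      IntegrableOn (fun y => g y * u y) (Icc (0 : Fin d → ℝ) 1) := by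
    intro u hu hub
    refine Integrable.of_bound (C := 1) (hgm.mul hu).aestronglyMeasurable
      (Eventually.of_forall fun y => ?_)
    rw [Real.norm_eq_abs, abs_mul]
    exact mul_le_one₀ (hgb y) (abs_nonneg _) (hub y)
  have h2 : ∀ k, f (t k) = (-1) ^ d * ∫ y in Icc (0 : Fin d → ℝ) 1, g y * ind (t k) y := by
    intro k
    simp only [hf]
    congr 1
    have e1 : ∫ y in Icc (0 : Fin d → ℝ) 1, g y * ind (t k) y =
        ∫ y in Icc (0 : Fin d → ℝ) 1, (Ici (t k)).indicator g y := by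
      refine integral_congr_ae ?_
      filter_upwards [ae_restrict_of_ae (ae_ind (t k))] with y hy
      rw [← hy]
      by_cases h : y ∈ Ici (t k)
      · rw [indicator_of_mem h, indicator_of_mem h, mul_one]
      · rw [indicator_of_notMem h, indicator_of_notMem h, mul_zero]
    rw [e1, setIntegral_indicator measurableSet_Ici]
    congr 2
    ext y
    simp only [mem_Icc, mem_inter_iff, mem_Ici]
    constructor
    · rintro ⟨h1, h2⟩
      exact ⟨⟨fun i => (ht k i).1.trans (h1 i), h2⟩, h1⟩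
    · rintro ⟨⟨h1, h2⟩, h3⟩; exact ⟨h3, h2⟩
  have h3 : ∑ k, a k * f (t k) = (-1) ^ d * ∫ y in Icc (0 : Fin d → ℝ) 1, g y * F a t y := by
    have e : ∀ y, g y * F a t y = ∑ k, a k * (g y * ind (t k) y) := by
      intro y
      unfold F
      rw [Finset.mul_sum]
      exact Finset.sum_congr rfl fun k _ => by ring
    simp only [e]
    rw [integral_finsetSum _ fun k _ => (hint _ (ind_meas (t k)) fun y => by
      rw [abs_of_nonneg (ind_nonneg _ _)]; exact ind_le_one _ _).const_mul (a k)]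
    rw [Finset.mul_sum]
    refine Finset.sum_congr rfl fun k _ => ?_
    rw [h2, integral_const_mul]
    ring
  have hF : IntegrableOn (fun y => g y * F a t y) (Icc (0 : Fin d → ℝ) 1) := by
    have e : (fun y => g y * F a t y) = fun y => ∑ k, a k * (g y * ind (t k) y) := by
      funext y
      unfold F
      rw [Finset.mul_sum]
      exact Finset.sum_congr rfl fun k _ => by ring
    rw [e]
    exact integrable_finsetSum _ fun k _ => (hint _ (ind_meas (t k)) fun y => by
      rw [abs_of_nonneg (ind_nonneg _ _)]; exact ind_le_one _ _).const_mul (a k)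
  have hT : IntegrableOn (fun y => g y * T y) (Icc (0 : Fin d → ℝ) 1) := by
    refine Integrable.of_bound (C := 1) (hgm.mul T_meas).aestronglyMeasurable ?_
    refine (ae_restrict_mem measurableSet_Icc).mono fun y hy => ?_
    rw [Real.norm_eq_abs, abs_mul]
    refine mul_le_one₀ (hgb y) (abs_nonneg _) ?_
    rw [abs_of_nonneg (T_mem hy).1]
    exact (T_mem hy).2
  rw [h1, h3, ← mul_sub, ← integral_sub hT hF, ← integral_const_mul]
  rw [← abs_neg, ← integral_neg]
  refine le_trans (le_of_eq ?_) (le_abs_self _)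
  refine integral_congr_ae (Eventually.of_forall fun y => ?_)
  have hsq : ((-1 : ℝ) ^ d) * (-1) ^ d = 1 := by
    rw [← mul_pow]; norm_num
  simp only [hg]
  have e : -((-1 : ℝ) ^ d * ((-1) ^ d * (if T y < F a t y then 1 else -1) * T y -
      (-1) ^ d * (if T y < F a t y then 1 else -1) * F a t y)) =
      ((-1 : ℝ) ^ d * (-1) ^ d) * ((if T y < F a t y then 1 else -1) * (F a t y - T y)) := by ring
  rw [e, hsq, one_mul]
  split_ifs with h
  · rw [abs_of_pos (by linarith), one_mul]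
  · rw [abs_of_nonpos (by linarith)]; ring

/-! ## Integrals of product functions -/

lemma vol_eq (d : ℕ) : (volume : Measure (Fin d → ℝ)).restrict (Icc 0 1) =
    Measure.pi (fun _ : Fin d => (volume : Measure ℝ).restrict (Icc 0 1)) := by
  rw [← Measure.restrict_pi_pi, volume_pi]
  congr 1
  rw [← Set.pi_univ_Icc]
  rfl

lemma integral_prod_fun {d : ℕ} (u : Fin d → ℝ → ℝ) :
    ∫ x in Icc (0 : Fin d → ℝ) 1, ∏ i, u i (x i) = ∏ i, ∫ y in Icc (0 : ℝ) 1, u i y := by
  rw [vol_eq, integral_fintype_prod_eq_prod]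

lemma integrable_prod_fun {d : ℕ} (u : Fin d → ℝ → ℝ)
    (h : ∀ i, IntegrableOn (u i) (Icc (0 : ℝ) 1)) :
    IntegrableOn (fun x : Fin d → ℝ => ∏ i, u i (x i)) (Icc (0 : Fin d → ℝ) 1) := by
  rw [IntegrableOn, vol_eq]
  exact Integrable.fintype_prod h

lemma one_dim_rpow {s : ℝ} (hs : 0 ≤ s) :
    IntegrableOn (fun y : ℝ => y ^ s) (Icc (0 : ℝ) 1) ∧
      ∫ y in Icc (0 : ℝ) 1, y ^ s = 1 / (1 + s) := by
  constructor
  · rw [integrableOn_Icc_iff_integrableOn_Ioc, ← intervalIntegrable_iff_integrableOn_Ioc_of_le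
      zero_le_one]
    exact intervalIntegral.intervalIntegrable_rpow (Or.inl hs)
  · rw [integral_Icc_eq_integral_Ioc, ← intervalIntegral.integral_of_le zero_le_one,
      integral_rpow (Or.inl (by linarith))]
    rw [Real.one_rpow, Real.zero_rpow (by linarith)]
    simp [add_comm]

lemma one_dim_beta {s : ℝ} (hs : 0 ≤ s) :
    IntegrableOn (fun y : ℝ => y * (1 - y) ^ s) (Icc (0 : ℝ) 1) ∧
      ∫ y in Icc (0 : ℝ) 1, y * (1 - y) ^ s = 1 / ((1 + s) * (2 + s)) := by
  have hcont : Continuous fun y : ℝ => y * (1 - y) ^ s :=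
    continuous_id.mul ((continuous_const.sub continuous_id).rpow_const fun _ => Or.inr hs)
  constructor
  · exact hcont.integrableOn_Icc
  · rw [integral_Icc_eq_integral_Ioc, ← intervalIntegral.integral_of_le zero_le_one]
    have h1 : ∫ y in (0:ℝ)..1, y * (1 - y) ^ s = ∫ y in (0:ℝ)..1, (1 - y) * y ^ s := by
      have := intervalIntegral.integral_comp_sub_left (a := 0) (b := 1)
        (fun y : ℝ => (1 - y) * y ^ s) 1
      simp only [sub_self, sub_zero, sub_sub_cancel] at this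
      exact this
    rw [h1]
    have h2 : ∀ y ∈ uIcc (0:ℝ) 1, (1 - y) * y ^ s = y ^ s - y ^ (s + 1) := by
      intro y hy
      rw [uIcc_of_le zero_le_one] at hy
      rcases hy.1.eq_or_lt with h | h
      · rw [← h, Real.zero_rpow (by linarith : s + 1 ≠ 0)]; ring
      · rw [Real.rpow_add h, Real.rpow_one]; ring
    rw [intervalIntegral.integral_congr h2, intervalIntegral.integral_sub
      (intervalIntegral.intervalIntegrable_rpow (Or.inl hs))
      (intervalIntegral.intervalIntegrable_rpow (Or.inl (by linarith))),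
      integral_rpow (Or.inl (by linarith)), integral_rpow (Or.inl (by linarith))]
    rw [Real.one_rpow, Real.one_rpow, Real.zero_rpow (by linarith), Real.zero_rpow (by linarith)]
    field_simp
    ring

lemma one_dim_sing {s u : ℝ} (hs1 : s < 1) (hu : u ∈ Ico (0 : ℝ) 1) :
    IntegrableOn ((Ioi u).indicator fun y : ℝ => (1 - y) ^ (-s)) (Icc (0 : ℝ) 1) ∧
      ∫ y in Icc (0 : ℝ) 1, (Ioi u).indicator (fun y : ℝ => (1 - y) ^ (-s)) y =
        (1 - u) ^ (1 - s) / (1 - s) := by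
  have hint : IntervalIntegrable (fun y : ℝ => (1 - y) ^ (-s)) volume u 1 := by
    have h := (intervalIntegral.intervalIntegrable_rpow' (a := 1 - u) (b := 0)
      (r := -s) (by linarith)).comp_sub_left 1
    simpa using h
  have hset : Icc (0 : ℝ) 1 ∩ Ioi u = Ioc u 1 := by
    ext y
    simp only [mem_inter_iff, mem_Icc, mem_Ioi, mem_Ioc]
    constructor
    · rintro ⟨⟨h1, h2⟩, h3⟩; exact ⟨h3, h2⟩
    · rintro ⟨h1, h2⟩; exact ⟨⟨hu.1.trans h1.le, h2⟩, h1⟩
  constructor
  · rw [IntegrableOn, integrable_indicator_iff measurableSet_Ioi, IntegrableOn,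
      Measure.restrict_restrict measurableSet_Ioi, inter_comm, hset]
    exact (intervalIntegrable_iff_integrableOn_Ioc_of_le hu.2.le).1 hint
  · rw [setIntegral_indicator measurableSet_Ioi, hset, ← intervalIntegral.integral_of_le hu.2.le]
    have h1 : ∫ y in u..1, (1 - y) ^ (-s) = ∫ y in (0:ℝ)..(1 - u), y ^ (-s) := by
      have := intervalIntegral.integral_comp_sub_left (a := u) (b := 1)
        (fun y : ℝ => y ^ (-s)) 1
      simpa using this
    rw [h1, integral_rpow (Or.inl (by linarith)), Real.zero_rpow (by linarith)]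
    rw [sub_zero, neg_add_eq_sub]

/-- the volume of the box `[t,1]` -/
lemma integral_ind {d : ℕ} {t : Fin d → ℝ} (ht : ∀ i, t i ∈ Ico (0 : ℝ) 1) :
    ∫ x in Icc (0 : Fin d → ℝ) 1, ind t x = ∏ i, (1 - t i) := by
  have e : ∀ x : Fin d → ℝ, ind t x = ∏ i, (Ioi (t i)).indicator (fun _ => (1 : ℝ)) (x i) := by
    intro x
    unfold ind
    by_cases h : ∀ i, t i < x i
    · rw [indicator_of_mem (show x ∈ {x : Fin d → ℝ | ∀ i, t i < x i} from h)]
      rw [Finset.prod_eq_one]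
      intro i _
      exact indicator_of_mem (show x i ∈ Ioi (t i) from h i) _
    · rw [indicator_of_notMem (show x ∉ {x : Fin d → ℝ | ∀ i, t i < x i} from h)]
      push Not at h
      obtain ⟨i, hi⟩ := h
      rw [Finset.prod_eq_zero (Finset.mem_univ i)]
      exact indicator_of_notMem (show x i ∉ Ioi (t i) from not_lt.2 hi) _
  simp only [e]
  rw [integral_prod_fun (fun i => (Ioi (t i)).indicator (fun _ => (1 : ℝ)))]
  refine Finset.prod_congr rfl fun i _ => ?_
  rw [setIntegral_indicator measurableSet_Ioi, setIntegral_const]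
  have hset : Icc (0 : ℝ) 1 ∩ Ioi (t i) = Ioc (t i) 1 := by
    ext y
    simp only [mem_inter_iff, mem_Icc, mem_Ioi, mem_Ioc]
    constructor
    · rintro ⟨⟨h1, h2⟩, h3⟩; exact ⟨h3, h2⟩
    · rintro ⟨h1, h2⟩; exact ⟨⟨(ht i).1.trans h1.le, h2⟩, h1⟩
  rw [hset, smul_eq_mul, mul_one, Measure.real, Real.volume_Ioc,
    ENNReal.toReal_ofReal (by linarith [(ht i).2])]

lemma integrable_ind {d : ℕ} (t : Fin d → ℝ) :
    IntegrableOn (ind t) (Icc (0 : Fin d → ℝ) 1) := by
  refine Integrable.of_bound (C := 1) (ind_meas t).aestronglyMeasurable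
    (Eventually.of_forall fun y => ?_)
  rw [Real.norm_eq_abs, abs_of_nonneg (ind_nonneg _ _)]
  exact ind_le_one _ _

lemma integral_sing {d : ℕ} {t : Fin d → ℝ} (ht : ∀ i, t i ∈ Ico (0 : ℝ) 1) {s : ℝ}
    (hs1 : s < 1) :
    IntegrableOn (fun x => ind t x * R x ^ (-s)) (Icc (0 : Fin d → ℝ) 1) ∧
    ∫ x in Icc (0 : Fin d → ℝ) 1, ind t x * R x ^ (-s) =
      (∏ i, (1 - t i)) ^ (1 - s) * (1 / (1 - s)) ^ d := by
  have e : ∀ x ∈ Icc (0 : Fin d → ℝ) 1, ind t x * R x ^ (-s) =
      ∏ i, (Ioi (t i)).indicator (fun y : ℝ => (1 - y) ^ (-s)) (x i) := by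
    intro x hx
    unfold ind
    by_cases h : ∀ i, t i < x i
    · rw [indicator_of_mem (show x ∈ {x : Fin d → ℝ | ∀ i, t i < x i} from h), one_mul, R,
        ← Real.finsetProd_rpow _ _ (fun i _ => by linarith [hx.2 i, show (1 : Fin d → ℝ) i = 1 from rfl])]
      refine Finset.prod_congr rfl fun i _ => ?_
      rw [indicator_of_mem (show x i ∈ Ioi (t i) from h i)]
    · rw [indicator_of_notMem (show x ∉ {x : Fin d → ℝ | ∀ i, t i < x i} from h)]
      push Not at h
      obtain ⟨i, hi⟩ := h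
      rw [Finset.prod_eq_zero (Finset.mem_univ i), zero_mul]
      exact indicator_of_notMem (show x i ∉ Ioi (t i) from not_lt.2 hi) _
  constructor
  · refine (integrable_prod_fun (fun i => (Ioi (t i)).indicator (fun y : ℝ => (1 - y) ^ (-s)))
      fun i => (one_dim_sing hs1 (ht i)).1).congr ?_
    filter_upwards [ae_restrict_mem measurableSet_Icc] with x hx
    exact (e x hx).symm
  · rw [setIntegral_congr_fun measurableSet_Icc e,
      integral_prod_fun (fun i => (Ioi (t i)).indicator (fun y : ℝ => (1 - y) ^ (-s)))]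
    simp only [fun i => (one_dim_sing hs1 (ht i)).2]
    rw [← Real.finsetProd_rpow _ _ (fun i _ => by linarith [(ht i).2])]
    simp only [div_eq_mul_inv, Finset.prod_mul_distrib, one_mul, Finset.prod_const,
      Finset.card_univ, Fintype.card_fin]

lemma integral_T1 {d : ℕ} {s : ℝ} (hs : 0 ≤ s) :
    IntegrableOn (fun x : Fin d → ℝ => T x * T x ^ s) (Icc (0 : Fin d → ℝ) 1) ∧
    ∫ x in Icc (0 : Fin d → ℝ) 1, T x * T x ^ s = (1 / (2 + s)) ^ d := by
  have e : ∀ x ∈ Icc (0 : Fin d → ℝ) 1, T x * T x ^ s = ∏ i, (x i) ^ (1 + s) := by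
    intro x hx
    rw [T, ← Real.finsetProd_rpow _ _ (fun i _ => hx.1 i), ← Finset.prod_mul_distrib]
    refine Finset.prod_congr rfl fun i _ => ?_
    have h0 : (0:ℝ) ≤ x i := hx.1 i
    rcases h0.eq_or_lt with h | h
    · rw [← h, Real.zero_rpow (by linarith : 1 + s ≠ 0), zero_mul]
    · rw [Real.rpow_add h, Real.rpow_one]
  have h1 := one_dim_rpow (s := 1 + s) (by linarith)
  constructor
  · refine (integrable_prod_fun (fun (_ : Fin d) (y : ℝ) => y ^ (1 + s)) fun _ => h1.1).congr ?_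
    filter_upwards [ae_restrict_mem measurableSet_Icc] with x hx
    exact (e x hx).symm
  · rw [setIntegral_congr_fun measurableSet_Icc e,
      integral_prod_fun (fun (_ : Fin d) (y : ℝ) => y ^ (1 + s))]
    simp only [h1.2, Finset.prod_const, Finset.card_univ, Fintype.card_fin]
    congr 2
    ring

lemma integral_TR {d : ℕ} {s : ℝ} (hs : 0 ≤ s) :
    IntegrableOn (fun x : Fin d → ℝ => T x * R x ^ s) (Icc (0 : Fin d → ℝ) 1) ∧
    ∫ x in Icc (0 : Fin d → ℝ) 1, T x * R x ^ s = (1 / ((1 + s) * (2 + s))) ^ d := by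
  have e : ∀ x ∈ Icc (0 : Fin d → ℝ) 1, T x * R x ^ s = ∏ i, (x i * (1 - x i) ^ s) := by
    intro x hx
    rw [T, R, ← Real.finsetProd_rpow _ _
      (fun i _ => by linarith [hx.2 i, show (1 : Fin d → ℝ) i = 1 from rfl]),
      ← Finset.prod_mul_distrib]
  have h1 := one_dim_beta hs
  constructor
  · refine (integrable_prod_fun (fun (_ : Fin d) (y : ℝ) => y * (1 - y) ^ s) fun _ => h1.1).congr ?_
    filter_upwards [ae_restrict_mem measurableSet_Icc] with x hx
    exact (e x hx).symm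
  · rw [setIntegral_congr_fun measurableSet_Icc e,
      integral_prod_fun (fun (_ : Fin d) (y : ℝ) => y * (1 - y) ^ s)]
    simp only [h1.2, Finset.prod_const, Finset.card_univ, Fintype.card_fin]

lemma integral_T {d : ℕ} :
    IntegrableOn (fun x : Fin d → ℝ => T x) (Icc (0 : Fin d → ℝ) 1) ∧
    ∫ x in Icc (0 : Fin d → ℝ) 1, T x = (1 / 2) ^ d := by
  have h := integral_TR (d := d) (s := 0) le_rfl
  simp only [Real.rpow_zero, mul_one] at h
  refine ⟨h.1, ?_⟩
  rw [h.2]
  norm_num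

/-! ## The main inequality -/

lemma F_nonneg {d N : ℕ} {a : Fin N → ℝ} (ha : ∀ k, 0 ≤ a k) (t : Fin N → Fin d → ℝ)
    (x : Fin d → ℝ) : 0 ≤ F a t x :=
  Finset.sum_nonneg fun k _ => mul_nonneg (ha k) (ind_nonneg _ _)

/-- The pointwise bound; `v` are the volumes of the boxes `[t_k, 1]`. -/
lemma pointwise {d N : ℕ} {a : Fin N → ℝ} (ha : ∀ k, 0 ≤ a k) (t : Fin N → Fin d → ℝ)
    (v : Fin N → ℝ) {τ₁ τ₂ v₀ s : ℝ} (h1 : 0 < τ₁) (h2 : 0 < τ₂) (hs : 0 ≤ s)
    {x : Fin d → ℝ} (hx : x ∈ Icc (0 : Fin d → ℝ) 1) (hR : 0 < R x) :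
    T x ≤ |F a t x - T x| + T x * T x ^ s * τ₁ ^ (-s) + T x * R x ^ s * τ₂ ^ (-s) +
      ∑ k, (if v k ≤ v₀ then τ₁ * ind (t k) x else a k * (ind (t k) x * R x ^ (-s)) * τ₂ ^ s) := by
  have hT := (T_mem hx).1
  have hnn : ∀ k, 0 ≤ (if v k ≤ v₀ then τ₁ * ind (t k) x
      else a k * (ind (t k) x * R x ^ (-s)) * τ₂ ^ s) := by
    intro k
    have := ind_nonneg (t k) x
    have := ha k
    split_ifs <;> positivity
  have hsum : 0 ≤ ∑ k, (if v k ≤ v₀ then τ₁ * ind (t k) x
      else a k * (ind (t k) x * R x ^ (-s)) * τ₂ ^ s) := Finset.sum_nonneg fun k _ => hnn k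
  have habs := abs_nonneg (F a t x - T x)
  have hA : 0 ≤ T x * T x ^ s * τ₁ ^ (-s) := by positivity
  have hB : 0 ≤ T x * R x ^ s * τ₂ ^ (-s) := by positivity
  rcases lt_or_ge τ₁ (T x) with hc1 | hc1
  · -- `T` is large
    have h3 : 1 ≤ T x ^ s * τ₁ ^ (-s) := by
      rw [Real.rpow_neg h1.le, ← div_eq_mul_inv, ← Real.div_rpow hT h1.le]
      exact Real.one_le_rpow (by rw [le_div_iff₀ h1]; linarith) hs
    have h4 : T x ≤ T x * T x ^ s * τ₁ ^ (-s) := by
      rw [mul_assoc]; exact le_mul_of_one_le_right hT h3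
    linarith
  rcases lt_or_ge τ₂ (R x) with hc2 | hc2
  · have h3 : 1 ≤ R x ^ s * τ₂ ^ (-s) := by
      rw [Real.rpow_neg h2.le, ← div_eq_mul_inv, ← Real.div_rpow hR.le h2.le]
      exact Real.one_le_rpow (by rw [le_div_iff₀ h2]; linarith) hs
    have h4 : T x ≤ T x * R x ^ s * τ₂ ^ (-s) := by
      rw [mul_assoc]; exact le_mul_of_one_le_right hT h3
    linarith
  by_cases hex : ∃ k, v k ≤ v₀ ∧ ind (t k) x = 1
  · obtain ⟨k, hk1, hk2⟩ := hex
    have h3 : τ₁ ≤ ∑ k, (if v k ≤ v₀ then τ₁ * ind (t k) x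
        else a k * (ind (t k) x * R x ^ (-s)) * τ₂ ^ s) := by
      refine le_trans (le_of_eq ?_) (Finset.single_le_sum (fun k _ => hnn k) (Finset.mem_univ k))
      simp only [if_pos hk1, hk2, mul_one]
    linarith
  · -- all boxes containing `x` are large
    push Not at hex
    have h3 : F a t x ≤ ∑ k, (if v k ≤ v₀ then τ₁ * ind (t k) x
        else a k * (ind (t k) x * R x ^ (-s)) * τ₂ ^ s) := by
      unfold F
      refine Finset.sum_le_sum fun k _ => ?_
      by_cases hk : v k ≤ v₀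
      · have h0 : ind (t k) x = 0 := by
          have := hex k hk
          unfold ind at this ⊢
          rw [Set.indicator_apply] at this ⊢
          split_ifs at this ⊢ with h
          · exact absurd rfl this
          · rfl
        rw [h0, mul_zero]
        have := hnn k
        rwa [h0] at this
      · rw [if_neg hk]
        have h5 : 1 ≤ R x ^ (-s) * τ₂ ^ s := by
          rw [Real.rpow_neg hR.le, mul_comm, ← div_eq_mul_inv, ← Real.div_rpow h2.le hR.le]
          exact Real.one_le_rpow (by rw [le_div_iff₀ hR]; linarith) hs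
        have h6 : 0 ≤ a k * ind (t k) x := mul_nonneg (ha k) (ind_nonneg _ _)
        calc a k * ind (t k) x ≤ a k * ind (t k) x * (R x ^ (-s) * τ₂ ^ s) :=
              le_mul_of_one_le_right h6 h5
          _ = _ := by ring
    have h4 : T x - F a t x ≤ |F a t x - T x| := by
      rw [abs_sub_comm]; exact le_abs_self _
    linarith

lemma ae_R_pos (d : ℕ) : ∀ᵐ x ∂(volume.restrict (Icc (0 : Fin d → ℝ) 1)), 0 < R x := by
  have h : ∀ᵐ y : Fin d → ℝ, ∀ i, y i ≠ 1 := by
    rw [ae_all_iff]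
    intro i
    have h2 : Tendsto (fun y : Fin d → ℝ => y i) (ae (volume : Measure (Fin d → ℝ)))
        (ae (volume : Measure ℝ)) := Measure.tendsto_eval_ae_ae
    exact h2.eventually (Measure.ae_ne volume 1)
  filter_upwards [ae_restrict_of_ae h, ae_restrict_mem measurableSet_Icc] with x h1 hx
  refine Finset.prod_pos fun i _ => ?_
  have h2 : x i ≤ 1 := hx.2 i
  have := lt_of_le_of_ne h2 (h1 i)
  linarith

lemma integrable_abs {d N : ℕ} (a : Fin N → ℝ) (t : Fin N → Fin d → ℝ) :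
    IntegrableOn (fun x => |F a t x - T x|) (Icc (0 : Fin d → ℝ) 1) := by
  have h1 : IntegrableOn (F a t) (Icc (0 : Fin d → ℝ) 1) := by
    unfold F
    exact integrable_finsetSum _ fun k _ => (integrable_ind (t k)).const_mul (a k)
  exact (h1.sub integral_T.1).abs

/-- The main inequality. -/
lemma main_ineq {d N : ℕ} {a : Fin N → ℝ} (ha : ∀ k, 0 ≤ a k) {t : Fin N → Fin d → ℝ}
    (ht : ∀ k i, t k i ∈ Ico (0 : ℝ) 1) {τ₁ τ₂ v₀ s : ℝ} (h1 : 0 < τ₁) (h2 : 0 < τ₂)
    (h0 : 0 < v₀) (hs : 0 ≤ s) (hs1 : s < 1) :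
    (1 / 2) ^ d ≤ (∫ x in Icc (0 : Fin d → ℝ) 1, |F a t x - T x|) +
      (1 / (2 + s)) ^ d * τ₁ ^ (-s) + (1 / ((1 + s) * (2 + s))) ^ d * τ₂ ^ (-s) +
      N * (τ₁ * v₀) + τ₂ ^ s * v₀ ^ (-s) * (1 / (1 - s)) ^ d *
        ((1 / 2) ^ d + ∫ x in Icc (0 : Fin d → ℝ) 1, |F a t x - T x|) := by
  set D := ∫ x in Icc (0 : Fin d → ℝ) 1, |F a t x - T x| with hD
  set v : Fin N → ℝ := fun k => ∏ i, (1 - t k i) with hv
  have hvpos : ∀ k, 0 < v k := fun k => Finset.prod_pos fun i _ => by linarith [(ht k i).2]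
  set h : Fin N → (Fin d → ℝ) → ℝ := fun k x =>
    if v k ≤ v₀ then τ₁ * ind (t k) x else a k * (ind (t k) x * R x ^ (-s)) * τ₂ ^ s with hh
  have hi1 := integral_T1 (d := d) hs
  have hi2 := integral_TR (d := d) hs
  have hi3 := fun k => integral_sing (ht k) hs1
  have hhint : ∀ k, IntegrableOn (h k) (Icc (0 : Fin d → ℝ) 1) := by
    intro k
    simp only [hh]
    split_ifs
    · exact (integrable_ind (t k)).const_mul τ₁
    · exact ((hi3 k).1.const_mul (a k)).mul_const (τ₂ ^ s)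
  have hhle : ∀ k, ∫ x in Icc (0 : Fin d → ℝ) 1, h k x ≤
      τ₁ * v₀ + a k * v k * (τ₂ ^ s * v₀ ^ (-s) * (1 / (1 - s)) ^ d) := by
    intro k
    have hak := ha k
    have hvk := hvpos k
    have hs2 : 0 < 1 - s := by linarith
    simp only [hh]
    split_ifs with hk
    · rw [integral_const_mul, integral_ind (ht k)]
      have h3 : τ₁ * v k ≤ τ₁ * v₀ := mul_le_mul_of_nonneg_left hk h1.le
      have h4 : 0 ≤ a k * v k * (τ₂ ^ s * v₀ ^ (-s) * (1 / (1 - s)) ^ d) := by positivity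
      linarith
    · rw [integral_mul_const, integral_const_mul, (hi3 k).2]
      push Not at hk
      have h3 : v k ^ (1 - s) ≤ v k * v₀ ^ (-s) := by
        rw [sub_eq_add_neg, Real.rpow_add hvk, Real.rpow_one]
        refine mul_le_mul_of_nonneg_left ?_ hvk.le
        exact Real.rpow_le_rpow_of_nonpos h0 hk.le (by linarith)
      have h5 : (0:ℝ) ≤ τ₁ * v₀ := by positivity
      calc a k * (v k ^ (1 - s) * (1 / (1 - s)) ^ d) * τ₂ ^ s
          ≤ a k * ((v k * v₀ ^ (-s)) * (1 / (1 - s)) ^ d) * τ₂ ^ s := by gcongr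
        _ = a k * v k * (τ₂ ^ s * v₀ ^ (-s) * (1 / (1 - s)) ^ d) := by ring
        _ ≤ _ := by linarith
  -- the total mass
  have hmass : ∑ k, a k * v k ≤ (1 / 2) ^ d + D := by
    have h3 : ∑ k, a k * v k = ∫ x in Icc (0 : Fin d → ℝ) 1, F a t x := by
      unfold F
      rw [integral_finsetSum _ fun k _ => (integrable_ind (t k)).const_mul (a k)]
      refine Finset.sum_congr rfl fun k _ => ?_
      rw [integral_const_mul, integral_ind (ht k)]
    have h4 : IntegrableOn (F a t) (Icc (0 : Fin d → ℝ) 1) := by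
      unfold F
      exact integrable_finsetSum _ fun k _ => (integrable_ind (t k)).const_mul (a k)
    rw [h3, ← integral_T.2, hD, ← integral_add integral_T.1 (integrable_abs a t)]
    refine integral_mono h4 (integral_T.1.add (integrable_abs a t)) fun x => ?_
    have := le_abs_self (F a t x - T x)
    simp only
    linarith
  have hpt : ∀ᵐ x ∂(volume.restrict (Icc (0 : Fin d → ℝ) 1)),
      T x ≤ |F a t x - T x| + T x * T x ^ s * τ₁ ^ (-s) + T x * R x ^ s * τ₂ ^ (-s) +
        ∑ k, h k x := by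
    filter_upwards [ae_R_pos d, ae_restrict_mem measurableSet_Icc] with x hR hx
    exact pointwise ha t v h1 h2 hs hx hR
  have hint1 : IntegrableOn (fun x => |F a t x - T x| + T x * T x ^ s * τ₁ ^ (-s))
      (Icc (0 : Fin d → ℝ) 1) := (integrable_abs a t).add (hi1.1.mul_const (τ₁ ^ (-s)))
  have hint2 : IntegrableOn (fun x => |F a t x - T x| + T x * T x ^ s * τ₁ ^ (-s) +
      T x * R x ^ s * τ₂ ^ (-s)) (Icc (0 : Fin d → ℝ) 1) :=
    hint1.add (hi2.1.mul_const (τ₂ ^ (-s)))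
  have hint3 : IntegrableOn (fun x => ∑ k, h k x) (Icc (0 : Fin d → ℝ) 1) :=
    integrable_finsetSum Finset.univ fun k _ => hhint k
  have hfin := integral_mono_ae integral_T.1 (hint2.add hint3) hpt
  rw [integral_T.2] at hfin
  have e1 : ∫ x in Icc (0 : Fin d → ℝ) 1, (|F a t x - T x| + T x * T x ^ s * τ₁ ^ (-s) +
      T x * R x ^ s * τ₂ ^ (-s) + ∑ k, h k x) =
      D + (1 / (2 + s)) ^ d * τ₁ ^ (-s) + (1 / ((1 + s) * (2 + s))) ^ d * τ₂ ^ (-s) +
        ∑ k, ∫ x in Icc (0 : Fin d → ℝ) 1, h k x := by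
    rw [integral_add hint2 hint3, integral_add hint1 (hi2.1.mul_const (τ₂ ^ (-s))),
      integral_add (integrable_abs a t) (hi1.1.mul_const (τ₁ ^ (-s))), integral_mul_const,
      integral_mul_const, hi1.2, hi2.2, integral_finsetSum _ fun k _ => hhint k]
  have hfin2 : (1 / 2 : ℝ) ^ d ≤ D + (1 / (2 + s)) ^ d * τ₁ ^ (-s) +
      (1 / ((1 + s) * (2 + s))) ^ d * τ₂ ^ (-s) +
        ∑ k, ∫ x in Icc (0 : Fin d → ℝ) 1, h k x := by
    rw [← e1]; exact hfin
  have hsum : ∑ k, ∫ x in Icc (0 : Fin d → ℝ) 1, h k x ≤ N * (τ₁ * v₀) +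
      τ₂ ^ s * v₀ ^ (-s) * (1 / (1 - s)) ^ d * ((1 / 2) ^ d + D) := by
    have hs2 : 0 < 1 - s := by linarith
    calc ∑ k, ∫ x in Icc (0 : Fin d → ℝ) 1, h k x ≤
        ∑ k, (τ₁ * v₀ + a k * v k * (τ₂ ^ s * v₀ ^ (-s) * (1 / (1 - s)) ^ d)) :=
          Finset.sum_le_sum fun k _ => hhle k
      _ = N * (τ₁ * v₀) + (∑ k, a k * v k) * (τ₂ ^ s * v₀ ^ (-s) * (1 / (1 - s)) ^ d) := by
          rw [Finset.sum_add_distrib, Finset.sum_mul, Finset.sum_const, Finset.card_univ,
            Fintype.card_fin, nsmul_eq_mul]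
      _ ≤ N * (τ₁ * v₀) + ((1 / 2) ^ d + D) * (τ₂ ^ s * v₀ ^ (-s) * (1 / (1 - s)) ^ d) := by
          gcongr
      _ = _ := by ring
  linarith

/-! ## The choice of the parameters -/

/-- Exponential form: all parameters are `d`-th powers. -/
lemma main_exp {d N : ℕ} {a : Fin N → ℝ} (ha : ∀ k, 0 ≤ a k) {t : Fin N → Fin d → ℝ}
    (ht : ∀ k i, t k i ∈ Ico (0 : ℝ) 1) {η s : ℝ} (hs : 0 ≤ s) (hs1 : s < 1) :
    (1 / 2) ^ d * (1 - (Real.exp (s * (1 / 2 - η)) * (2 / (2 + s))) ^ d -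
        (Real.exp (s * (3 / 2 - η)) * (2 / ((1 + s) * (2 + s)))) ^ d -
        (Real.exp (-(s * (1 + η))) * (1 / (1 - s))) ^ d) ≤
      (∫ x in Icc (0 : Fin d → ℝ) 1, |F a t x - T x|) *
        (1 + (Real.exp (-(s * (1 + η))) * (1 / (1 - s))) ^ d) + N * Real.exp (3 * η - 1) ^ d := by
  have key := main_ineq ha ht (τ₁ := Real.exp (η - 1 / 2) ^ d) (τ₂ := Real.exp (η - 3 / 2) ^ d)
    (v₀ := Real.exp (2 * η - 1 / 2) ^ d) (by positivity) (by positivity) (by positivity) hs hs1
  have e1 : ∀ c r : ℝ, (Real.exp c ^ d) ^ r = Real.exp (c * r) ^ d := by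
    intro c r
    rw [← Real.rpow_natCast, ← Real.rpow_mul (Real.exp_pos c).le, ← Real.exp_mul,
      ← Real.rpow_natCast, ← Real.exp_mul]
    congr 1
    ring
  rw [e1, e1, e1, e1, ← mul_pow, ← mul_pow, ← mul_pow, ← Real.exp_add, ← mul_pow,
    ← Real.exp_add, ← mul_pow] at key
  have e2 : (η - 3 / 2) * s + (2 * η - 1 / 2) * -s = -(s * (1 + η)) := by ring
  have e3 : η - 1 / 2 + (2 * η - 1 / 2) = 3 * η - 1 := by ring
  rw [e2, e3] at key
  have e4 : (1 / (2 + s) * Real.exp ((η - 1 / 2) * -s)) ^ d =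
      (1 / 2) ^ d * (Real.exp (s * (1 / 2 - η)) * (2 / (2 + s))) ^ d := by
    rw [← mul_pow, show (η - 1 / 2) * -s = s * (1 / 2 - η) by ring]
    congr 1
    ring
  have e5 : (1 / ((1 + s) * (2 + s)) * Real.exp ((η - 3 / 2) * -s)) ^ d =
      (1 / 2) ^ d * (Real.exp (s * (3 / 2 - η)) * (2 / ((1 + s) * (2 + s)))) ^ d := by
    rw [← mul_pow, show (η - 3 / 2) * -s = s * (3 / 2 - η) by ring]
    congr 1
    ring
  rw [e4, e5] at key
  linarith

/-- The three bases are smaller than one. -/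
lemma bases {η : ℝ} (hη : 0 < η) (hη1 : η < 1) :
    Real.exp (η / 2 * (1 / 2 - η)) * (2 / (2 + η / 2)) < 1 ∧
    Real.exp (η / 2 * (3 / 2 - η)) * (2 / ((1 + η / 2) * (2 + η / 2))) < 1 ∧
    Real.exp (-(η / 2 * (1 + η))) * (1 / (1 - η / 2)) < 1 := by
  obtain ⟨s, hs⟩ : ∃ s, s = η / 2 := ⟨_, rfl⟩
  have hη' : η = 2 * s := by linarith
  have hs0 : 0 < s := by linarith
  have hs1 : s < 1 / 2 := by linarith
  rw [← hs, hη']
  have h1 : s / 2 - s ^ 2 / 4 ≤ Real.log (1 + s / 2) := by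
    refine le_trans ?_ (Real.one_sub_inv_le_log_of_pos (by positivity))
    have h7 : (1 + s / 2)⁻¹ ≤ 1 - (s / 2 - s ^ 2 / 4) := by
      rw [inv_le_iff_one_le_mul₀ (by positivity)]
      nlinarith [pow_pos hs0 3]
    linarith
  have h2 : s - s ^ 2 ≤ Real.log (1 + s) := by
    refine le_trans ?_ (Real.one_sub_inv_le_log_of_pos (by positivity))
    have h7 : (1 + s)⁻¹ ≤ 1 - (s - s ^ 2) := by
      rw [inv_le_iff_one_le_mul₀ (by positivity)]
      nlinarith [pow_pos hs0 3]
    linarith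
  have h3 : -s - 2 * s ^ 2 < Real.log (1 - s) := by
    refine lt_of_lt_of_le ?_ (Real.one_sub_inv_le_log_of_pos (by linarith))
    have h7 : (1 - s)⁻¹ < 1 + s + 2 * s ^ 2 := by
      rw [inv_lt_iff_one_lt_mul₀ (by linarith)]
      nlinarith [pow_pos hs0 3, pow_pos hs0 2, mul_pos (pow_pos hs0 2) (show 0 < 1 - 2 * s by linarith)]
    linarith
  have hsq : 0 < s ^ 2 := by positivity
  refine ⟨?_, ?_, ?_⟩
  · have e : Real.exp (s * (1 / 2 - 2 * s)) * (2 / (2 + s)) =
        Real.exp (s * (1 / 2 - 2 * s)) / (1 + s / 2) := by field_simp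
    rw [e, div_lt_one (by positivity), ← Real.lt_log_iff_exp_lt (by positivity)]
    nlinarith
  · have e : Real.exp (s * (3 / 2 - 2 * s)) * (2 / ((1 + s) * (2 + s))) =
        Real.exp (s * (3 / 2 - 2 * s)) / ((1 + s) * (1 + s / 2)) := by field_simp
    rw [e, div_lt_one (by positivity), ← Real.lt_log_iff_exp_lt (by positivity),
      Real.log_mul (by positivity) (by positivity)]
    nlinarith
  · have e : Real.exp (-(s * (1 + 2 * s))) * (1 / (1 - s)) =
        Real.exp (-(s * (1 + 2 * s))) / (1 - s) := by ring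
    rw [e, div_lt_one (by linarith), ← Real.lt_log_iff_exp_lt (by linarith)]
    nlinarith

/-- For `0 < δ < 1` and all large `d`: every non-negative formula with `N` nodes has an error of at
least `(1 - δ) 2^{-d} - N e^{(3η-1)d}`. -/
lemma minError_lower {η : ℝ} (hη : 0 < η) (hη1 : η < 1) {ε : ℝ} (hε0 : 0 < ε) (hε : ε < 1) :
    ∃ c : ℝ, 0 < c ∧ ∀ᶠ d : ℕ in atTop, ∀ N : ℕ,
      minError N d ≤ ENNReal.ofReal (ε * (1 / 2) ^ d) →
        c * (Real.exp (1 - 3 * η) / 2) ^ d ≤ N := by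
  obtain ⟨hb1, hb2, hb3⟩ := bases hη hη1
  set s := η / 2 with hs
  set α := Real.exp (s * (1 / 2 - η)) * (2 / (2 + s)) with hα
  set β := Real.exp (s * (3 / 2 - η)) * (2 / ((1 + s) * (2 + s))) with hβ
  set γ := Real.exp (-(s * (1 + η))) * (1 / (1 - s)) with hγ
  have hs0 : 0 < s := by positivity
  have hs1 : 0 < 1 - s := by linarith
  have hα0 : 0 ≤ α := by positivity
  have hβ0 : 0 ≤ β := by positivity
  have hγ0 : 0 ≤ γ := by positivity
  have hlim : Tendsto (fun d : ℕ => (1 - α ^ d - β ^ d - γ ^ d) - (ε + (1 - ε) / 2) * (1 + γ ^ d))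
      atTop (nhds ((1 - 0 - 0 - 0) - (ε + (1 - ε) / 2) * (1 + 0))) := by
    have h1 := tendsto_pow_atTop_nhds_zero_of_lt_one hα0 hb1
    have h2 := tendsto_pow_atTop_nhds_zero_of_lt_one hβ0 hb2
    have h3 := tendsto_pow_atTop_nhds_zero_of_lt_one hγ0 hb3
    exact ((((tendsto_const_nhds.sub h1).sub h2).sub h3)).sub
      (tendsto_const_nhds.mul (tendsto_const_nhds.add h3))
  have hpos : (1 - ε) / 4 < (1 - 0 - 0 - 0) - (ε + (1 - ε) / 2) * (1 + 0) := by linarith
  refine ⟨(1 - ε) / 4, by linarith, ?_⟩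
  filter_upwards [hlim.eventually_const_lt hpos] with d hd N hN
  -- a formula with error at most `(ε + (1 - ε)/2) 2^{-d}`
  have hlt : minError N d < ENNReal.ofReal ((ε + (1 - ε) / 2) * (1 / 2) ^ d) := by
    refine lt_of_le_of_lt hN ((ENNReal.ofReal_lt_ofReal_iff (by positivity)).2 ?_)
    have : (0:ℝ) < (1 / 2) ^ d := by positivity
    nlinarith
  unfold minError at hlt
  simp only [iInf_lt_iff] at hlt
  obtain ⟨a, t, ⟨ha, ht⟩, hlt⟩ := hlt
  have h1 := lt_of_le_of_lt (le_worstError a t ht) hlt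
  have h2 : ∫ x in Icc (0 : Fin d → ℝ) 1, |F a t x - T x| < (ε + (1 - ε) / 2) * (1 / 2) ^ d :=
    (ENNReal.ofReal_lt_ofReal_iff (by positivity)).1 h1
  have h3 := main_exp ha ht (η := η) hs0.le (by linarith : s < 1)
  rw [← hα, ← hβ, ← hγ] at h3
  set D := ∫ x in Icc (0 : Fin d → ℝ) 1, |F a t x - T x|
  have hγd : 0 ≤ γ ^ d := by positivity
  have hhalf : (0:ℝ) < (1 / 2) ^ d := by positivity
  have h4 : (1 / 2) ^ d * ((1 - ε) / 4) ≤ N * Real.exp (3 * η - 1) ^ d := by
    have h5 : D * (1 + γ ^ d) ≤ (ε + (1 - ε) / 2) * (1 / 2) ^ d * (1 + γ ^ d) := by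
      gcongr
    have h6 : (1 / 2) ^ d * ((1 - ε) / 4) ≤ (1 / 2) ^ d * ((1 - α ^ d - β ^ d - γ ^ d) -
        (ε + (1 - ε) / 2) * (1 + γ ^ d)) := mul_le_mul_of_nonneg_left hd.le hhalf.le
    linarith
  have h7 : (Real.exp (1 - 3 * η) / 2) ^ d * Real.exp (3 * η - 1) ^ d = (1 / 2) ^ d := by
    rw [← mul_pow]
    congr 1
    rw [div_mul_eq_mul_div, ← Real.exp_add]
    norm_num
  have h8 : (0:ℝ) < Real.exp (3 * η - 1) ^ d := by positivity
  refine le_of_mul_le_mul_right ?_ h8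
  rw [mul_assoc, h7]
  linarith

/-- **Positive answer to Q1**: integration on `F_{d,∞}` (the case `p = 1`) with non-negative
quadrature formulas suffers from the curse of dimensionality.  Moreover, for every `ε ∈ (0,1)` and
every `C < e/2 = 1.359…`, `N^+(ε,d) ≥ C^d` for all sufficiently large `d`. -/
theorem result :
    (∃ ε C : ℝ, 0 < ε ∧ 1 < C ∧ ∃ᶠ d : ℕ in atTop,
      ENNReal.ofReal (C ^ d) ≤ (complexity ε d : ℝ≥0∞)) ∧
    (∀ ε C : ℝ, 0 < ε → ε < 1 → 0 ≤ C → C < Real.exp 1 / 2 → ∀ᶠ d : ℕ in atTop,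
      ENNReal.ofReal (C ^ d) ≤ (complexity ε d : ℝ≥0∞)) := by
  have main : ∀ ε C : ℝ, 0 < ε → ε < 1 → 0 ≤ C → C < Real.exp 1 / 2 → ∀ᶠ d : ℕ in atTop,
      ENNReal.ofReal (C ^ d) ≤ (complexity ε d : ℝ≥0∞) := by
    intro ε C hε0 hε1 hC0 hC
    -- choose `η` with `C < e^{1-3η}/2`
    have hcont : Tendsto (fun η : ℝ => Real.exp (1 - 3 * η) / 2) (nhdsWithin 0 (Ioi 0))
        (nhds (Real.exp (1 - 3 * 0) / 2)) := by
      refine Tendsto.mono_left ?_ nhdsWithin_le_nhds
      exact (Continuous.tendsto (by fun_prop) 0)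
    rw [mul_zero, sub_zero] at hcont
    have h1 : ∀ᶠ η : ℝ in nhdsWithin 0 (Ioi 0), C < Real.exp (1 - 3 * η) / 2 :=
      hcont.eventually_const_lt hC
    have h2 : ∀ᶠ η : ℝ in nhdsWithin 0 (Ioi 0), η ∈ Ioo (0:ℝ) 1 := Ioo_mem_nhdsGT one_pos
    obtain ⟨η, h1, h2⟩ := (h1.and h2).exists
    obtain ⟨c, hc, hev⟩ := minError_lower h2.1 h2.2 hε0 hε1
    set B := Real.exp (1 - 3 * η) / 2 with hB
    have hB0 : 0 < B := by positivity
    have hlim : Tendsto (fun d : ℕ => (C / B) ^ d) atTop (nhds 0) :=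
      tendsto_pow_atTop_nhds_zero_of_lt_one (by positivity) ((div_lt_one hB0).2 h1)
    filter_upwards [hev, hlim.eventually_lt_const hc] with d hd hlt
    have hle : ((⌈C ^ d⌉₊ : ℕ) : ℕ∞) ≤ complexity ε d := by
      unfold complexity
      refine le_iInf₂ fun N hN => ?_
      have h3 := hd N hN
      have h4 : C ^ d ≤ c * B ^ d := by
        rw [div_pow, div_lt_iff₀ (by positivity)] at hlt
        exact hlt.le
      exact_mod_cast Nat.ceil_le.2 (h4.trans h3)
    calc ENNReal.ofReal (C ^ d) ≤ ENNReal.ofReal ((⌈C ^ d⌉₊ : ℕ) : ℝ) :=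
          ENNReal.ofReal_le_ofReal (Nat.le_ceil _)
      _ = ((((⌈C ^ d⌉₊ : ℕ) : ℕ∞)) : ℝ≥0∞) := by
          rw [ENNReal.ofReal_natCast, ENat.toENNReal_coe]
      _ ≤ _ := ENat.toENNReal_le.2 hle
  refine ⟨⟨1 / 2, 5 / 4, by norm_num, by norm_num, ?_⟩, main⟩
  refine (main (1 / 2) (5 / 4) (by norm_num) (by norm_num) (by norm_num) ?_).frequently
  have := Real.exp_one_gt_d9
  linarith

end Pool.Agent.Results.MP_2335a4_an.NonnegativeCurse
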